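import Pool.Agent.Q121.TS.Fourier

/-!
Sums of twisted large subsets cover all matrices.
-/

namespace Pool.Q121.TS

open Matrix Finset

variable {K : Type*} [Field K] [Fintype K] [DecidableEq K] {n : ℕ}

/-- the sumset `∑ a_i X_i b_i` -/
def Z {ι : Type*} [Fintype ι] [DecidableEq ι] (X : ι → Finset (Matrix (Fin n) (Fin n) K))
    (a b : ι → GL (Fin n) K) : Finset (Matrix (Fin n) (Fin n) K) :=
  (Fintype.piFinset X).image
    (fun x => ∑ i, (a i : Matrix (Fin n) (Fin n) K) * x i * (b i : Matrix (Fin n) (Fin n) K))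

lemma mem_Z {ι : Type*} [Fintype ι] [DecidableEq ι] {X : ι → Finset (Matrix (Fin n) (Fin n) K)}
    {a b : ι → GL (Fin n) K} {z : Matrix (Fin n) (Fin n) K} :
    z ∈ Z X a b ↔ ∃ x : ι → Matrix (Fin n) (Fin n) K, (∀ i, x i ∈ X i) ∧
      ∑ i, (a i : Matrix (Fin n) (Fin n) K) * x i * (b i : Matrix (Fin n) (Fin n) K) = z := by
  rw [Z, Finset.mem_image]
  constructor
  · rintro ⟨x, hx, h⟩
    exact ⟨x, Fintype.mem_piFinset.1 hx, h⟩
  · rintro ⟨x, hx, h⟩
    exact ⟨x, Fintype.mem_piFinset.2 hx, h⟩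

omit [Fintype K] [DecidableEq K] in
lemma psi_sum {ι : Type*} (ψ : AddChar K ℂ) (s : Finset ι) (g : ι → K) :
    ψ (∑ i ∈ s, g i) = ∏ i ∈ s, ψ (g i) := by
  classical
  induction s using Finset.induction_on with
  | empty => simp
  | insert a s ha ih => rw [Finset.sum_insert ha, Finset.prod_insert ha, AddChar.map_add_eq_mul, ih]

/-- Cauchy–Schwarz : a small sum of products of squares forces a large sumset -/
lemma half_of_moment {ι : Type*} [Fintype ι] [DecidableEq ι] {ψ : AddChar K ℂ}
    (hψ : ∃ t, ψ t ≠ 1) (X : ι → Finset (Matrix (Fin n) (Fin n) K)) (a b : ι → GL (Fin n) K)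
    (h : ∑ ξ : Matrix (Fin n) (Fin n) K, ∏ i, ‖S ψ (X i) ξ (a i : Matrix (Fin n) (Fin n) K)
      (b i : Matrix (Fin n) (Fin n) K)‖ ^ 2 < 2 * ∏ i, ((X i).card : ℝ) ^ 2) :
    (Fintype.card K : ℝ) ^ (n * n) < 2 * ((Z X a b).card : ℝ) := by
  classical
  set T := Fintype.piFinset X with hT
  set f : (ι → Matrix (Fin n) (Fin n) K) → Matrix (Fin n) (Fin n) K :=
    fun x => ∑ i, (a i : Matrix (Fin n) (Fin n) K) * x i * (b i : Matrix (Fin n) (Fin n) K) with hf
  have h1 : ∀ ξ : Matrix (Fin n) (Fin n) K,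
      ∏ i, ‖S ψ (X i) ξ (a i : Matrix (Fin n) (Fin n) K) (b i : Matrix (Fin n) (Fin n) K)‖ ^ 2
      = ‖∑ x ∈ T, ψ (trace (ξ * f x))‖ ^ 2 := by
    intro ξ
    rw [Finset.prod_pow, ← norm_prod]
    congr 2
    simp only [S]
    rw [Finset.prod_univ_sum]
    refine Finset.sum_congr rfl (fun x _ => ?_)
    rw [← psi_sum]
    congr 1
    rw [hf]
    simp only
    rw [Finset.mul_sum, Matrix.trace_sum]
  rw [Finset.sum_congr rfl (fun ξ _ => h1 ξ)] at h
  set r : Matrix (Fin n) (Fin n) K → ℝ := fun z => ((T.filter (fun x => f x = z)).card : ℝ) with hr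
  set W : ℝ := ∑ z ∈ T.image f, r z ^ 2 with hW
  have h2 : ∑ ξ : Matrix (Fin n) (Fin n) K, ‖∑ x ∈ T, ψ (trace (ξ * f x))‖ ^ 2
      = (Fintype.card K : ℝ) ^ (n * n) * W := by
    have h3 : ((∑ ξ : Matrix (Fin n) (Fin n) K, ‖∑ x ∈ T, ψ (trace (ξ * f x))‖ ^ 2 : ℝ) : ℂ)
        = (((Fintype.card K : ℝ) ^ (n * n) * W : ℝ) : ℂ) := by
      rw [Complex.ofReal_sum, Finset.sum_congr rfl (fun ξ _ => normsq_sum ψ T f ξ),
        Finset.sum_comm]
      have h4 : ∀ x ∈ T, ∑ ξ : Matrix (Fin n) (Fin n) K, ∑ y ∈ T, ψ (trace (ξ * (f x - f y)))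
          = (Fintype.card K : ℂ) ^ (n * n) * (r (f x) : ℂ) := by
        intro x _
        rw [Finset.sum_comm, Finset.sum_congr rfl (fun y _ => sum_char hψ (f x - f y)),
          ← Finset.sum_filter, Finset.sum_const, nsmul_eq_mul, mul_comm]
        congr 1
        rw [hr]
        simp only [Complex.ofReal_natCast]
        congr 2
        ext y
        simp only [Finset.mem_filter]
        refine and_congr_right (fun _ => ?_)
        rw [sub_eq_zero]
        exact eq_comm
      rw [Finset.sum_congr rfl h4, ← Finset.mul_sum]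
      rw [Complex.ofReal_mul, Complex.ofReal_pow, Complex.ofReal_natCast]
      congr 1
      rw [← Complex.ofReal_sum, hW]
      congr 1
      rw [Finset.sum_comp r f]
      refine Finset.sum_congr rfl (fun z _ => ?_)
      rw [nsmul_eq_mul, sq]
    exact_mod_cast h3
  rw [h2] at h
  have h5 : ∑ z ∈ T.image f, r z = (T.card : ℝ) := by
    rw [Finset.card_eq_sum_card_image f T]
    push_cast
    rfl
  have h6 : (T.card : ℝ) ^ 2 ≤ ((T.image f).card : ℝ) * W := by
    rw [← h5]
    exact sq_sum_le_card_mul_sum_sq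
  have h7 : (T.card : ℝ) ^ 2 = ∏ i, ((X i).card : ℝ) ^ 2 := by
    rw [hT, Fintype.card_piFinset, Finset.prod_pow]
    push_cast
    rfl
  rw [← h7] at h
  have h8 : (0 : ℝ) ≤ W := Finset.sum_nonneg (fun z _ => sq_nonneg _)
  have h9 : Z X a b = T.image f := rfl
  rw [h9]
  by_contra h10
  push Not at h10
  nlinarith

/-- large case: `m` twisted sets already cover more than one half -/
lemma half_of_large {ι : Type*} [Fintype ι] [DecidableEq ι] {c : ℝ} (hc : 0 < c)
    (hm : 12 ≤ c * Fintype.card ι) (hl : (32 : ℝ) ^ Fintype.card ι < (Fintype.card K : ℝ) ^ n)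
    (X : ι → Finset (Matrix (Fin n) (Fin n) K))
    (hX : ∀ i, (Fintype.card K : ℝ) ^ (c * (n : ℝ) ^ 2) ≤ ((X i).card : ℝ)) :
    ∃ a b : ι → GL (Fin n) K,
      (Fintype.card K : ℝ) ^ (n * n) < 2 * ((Z X a b).card : ℝ) := by
  classical
  obtain ⟨ψ, hψ⟩ := exists_char K
  have hq : (2 : ℝ) ≤ (Fintype.card K : ℝ) := by exact_mod_cast Fintype.one_lt_card (α := K)
  have hq0 : (0 : ℝ) < (Fintype.card K : ℝ) := by linarith
  set Q : ℝ := (Fintype.card K : ℝ) with hQ
  set G : ℝ := (Fintype.card (GL (Fin n) K) : ℝ) with hG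
  set m := Fintype.card ι with hmdef
  have hG0 : 0 < G := by
    rw [hG]
    exact_mod_cast Fintype.card_pos
  have hXpos : ∀ i, (0 : ℝ) < (X i).card := fun i =>
    lt_of_lt_of_le (Real.rpow_pos_of_pos hq0 _) (hX i)
  set F : (ι → GL (Fin n) K × GL (Fin n) K) → ℝ := fun p =>
    ∑ ξ : Matrix (Fin n) (Fin n) K, ∏ i, ‖S ψ (X i) ξ ((p i).1 : Matrix (Fin n) (Fin n) K)
      ((p i).2 : Matrix (Fin n) (Fin n) K)‖ ^ 2 with hF
  set B : ℝ := ∏ i, (G ^ 2 * ((X i).card : ℝ) ^ 2) with hB
  have hB0 : 0 < B := Finset.prod_pos (fun i _ => by have := hXpos i; positivity)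
  -- sum over all twistings
  have h1 : ∑ p, F p = ∑ ξ : Matrix (Fin n) (Fin n) K, ∏ i,
      ∑ p : GL (Fin n) K × GL (Fin n) K, ‖S ψ (X i) ξ (p.1 : Matrix (Fin n) (Fin n) K)
        (p.2 : Matrix (Fin n) (Fin n) K)‖ ^ 2 := by
    rw [hF, Finset.sum_comm]
    refine Finset.sum_congr rfl (fun ξ _ => ?_)
    rw [Finset.prod_univ_sum, Fintype.piFinset_univ]
  have h2 : ∏ i, ∑ p : GL (Fin n) K × GL (Fin n) K, ‖S ψ (X i) 0 (p.1 : Matrix (Fin n) (Fin n) K)
        (p.2 : Matrix (Fin n) (Fin n) K)‖ ^ 2 = B := by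
    rw [hB]
    refine Finset.prod_congr rfl (fun i _ => ?_)
    have h3 : ∀ p : GL (Fin n) K × GL (Fin n) K, ‖S ψ (X i) 0 (p.1 : Matrix (Fin n) (Fin n) K)
        (p.2 : Matrix (Fin n) (Fin n) K)‖ ^ 2 = ((X i).card : ℝ) ^ 2 := by
      intro p
      simp [S]
    rw [Finset.sum_congr rfl (fun p _ => h3 p), Finset.sum_const, Finset.card_univ,
      Fintype.card_prod, nsmul_eq_mul, Nat.cast_mul, hG]
    ring
  have h4 : ∀ ξ ∈ (Finset.univ : Finset (Matrix (Fin n) (Fin n) K)).erase 0,
      ∏ i, ∑ p : GL (Fin n) K × GL (Fin n) K, ‖S ψ (X i) ξ (p.1 : Matrix (Fin n) (Fin n) K)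
        (p.2 : Matrix (Fin n) (Fin n) K)‖ ^ 2
      ≤ 32 ^ m * B * Q ^ (-((ξ.rank : ℝ) * (m * (c * n / 3)))) := by
    intro ξ _
    have h5 : ∏ i, ∑ p : GL (Fin n) K × GL (Fin n) K, ‖S ψ (X i) ξ
        (p.1 : Matrix (Fin n) (Fin n) K) (p.2 : Matrix (Fin n) (Fin n) K)‖ ^ 2
        ≤ ∏ i, (32 * (G ^ 2 * ((X i).card : ℝ) ^ 2) * Q ^ (-((ξ.rank : ℝ) * (c * n / 3)))) := by
      apply Finset.prod_le_prod
      · intro i _
        exact Finset.sum_nonneg (fun p _ => by positivity)
      · intro i _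
        exact sum_GL_le hψ hc (X i) (hX i) ξ
    refine h5.trans (le_of_eq ?_)
    rw [Finset.prod_mul_distrib, Finset.prod_mul_distrib, Finset.prod_const, Finset.prod_const,
      Finset.card_univ, ← hmdef, ← hB]
    congr 1
    rw [← Real.rpow_natCast, ← Real.rpow_mul hq0.le]
    congr 1
    ring
  have h6 : ∑ p, F p < 2 * B := by
    rw [h1, ← Finset.add_sum_erase _ _ (Finset.mem_univ (0 : Matrix (Fin n) (Fin n) K)), h2]
    have h7 : ∑ ξ ∈ (Finset.univ : Finset (Matrix (Fin n) (Fin n) K)).erase 0,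
        ∏ i, ∑ p : GL (Fin n) K × GL (Fin n) K, ‖S ψ (X i) ξ (p.1 : Matrix (Fin n) (Fin n) K)
          (p.2 : Matrix (Fin n) (Fin n) K)‖ ^ 2 < B := by
      refine lt_of_le_of_lt (Finset.sum_le_sum h4) ?_
      rw [← Finset.mul_sum]
      have h8 := sum_rank_le (K := K) (n := n) ((m : ℝ) * (c * n / 3)) (by
        have hn0 : (0 : ℝ) ≤ n := Nat.cast_nonneg _
        nlinarith)
      have h32 : (0 : ℝ) < 32 ^ m := pow_pos (by norm_num) m
      have h9 : (0 : ℝ) < 32 ^ m * B := mul_pos h32 hB0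
      refine lt_of_le_of_lt (mul_le_mul_of_nonneg_left h8 h9.le) ?_
      rw [mul_one_div, div_lt_iff₀ (pow_pos hq0 n), mul_comm B]
      exact mul_lt_mul_of_pos_right hl hB0
    linarith
  -- averaging
  have h10 : ∃ p, F p < 2 * ∏ i, ((X i).card : ℝ) ^ 2 := by
    by_contra h11
    push Not at h11
    have h12 : ∑ p : ι → GL (Fin n) K × GL (Fin n) K, (2 * ∏ i, ((X i).card : ℝ) ^ 2) ≤ ∑ p, F p :=
      Finset.sum_le_sum (fun p _ => h11 p)
    rw [Finset.sum_const, Finset.card_univ, Fintype.card_fun, Fintype.card_prod,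
      nsmul_eq_mul] at h12
    have h13 : (((Fintype.card (GL (Fin n) K) * Fintype.card (GL (Fin n) K)) ^ Fintype.card ι : ℕ) : ℝ)
        * (2 * ∏ i, ((X i).card : ℝ) ^ 2) = 2 * B := by
      rw [hB, Finset.prod_mul_distrib, Finset.prod_const, Finset.card_univ, Nat.cast_pow,
        Nat.cast_mul, ← hG, ← sq]
      generalize (∏ i, ((X i).card : ℝ) ^ 2) = P
      ring
    rw [h13] at h12
    linarith
  obtain ⟨p, hp⟩ := h10
  exact ⟨fun i => (p i).1, fun i => (p i).2, half_of_moment hψ X _ _ hp⟩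

/-- two halves cover -/
lemma cover_of_halves (A B : Finset (Matrix (Fin n) (Fin n) K))
    (hA : (Fintype.card K : ℝ) ^ (n * n) < 2 * (A.card : ℝ))
    (hB : (Fintype.card K : ℝ) ^ (n * n) < 2 * (B.card : ℝ)) (z : Matrix (Fin n) (Fin n) K) :
    ∃ u ∈ A, ∃ v ∈ B, u + v = z := by
  classical
  by_contra h
  push Not at h
  have h1 : Disjoint A (B.image (fun v => z - v)) := by
    rw [Finset.disjoint_left]
    intro u hu hu'
    rw [Finset.mem_image] at hu'
    obtain ⟨v, hv, hvu⟩ := hu'
    exact h u hu v hv (by rw [← hvu]; abel)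
  have h2 : (B.image (fun v => z - v)).card = B.card :=
    Finset.card_image_of_injective _ sub_right_injective
  have h3 : (A ∪ B.image (fun v => z - v)).card ≤ Fintype.card K ^ (n * n) := by
    rw [← card_mat (K := K) n n]
    exact Finset.card_le_univ _
  rw [Finset.card_union_of_disjoint h1, h2] at h3
  have h4 : ((A.card : ℝ) + B.card) ≤ (Fintype.card K : ℝ) ^ (n * n) := by exact_mod_cast h3
  linarith

/-! ### the small case -/

lemma subsemiring_top (R : Subsemiring (Matrix (Fin n) (Fin n) K))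
    (h : ∀ g : GL (Fin n) K, (g : Matrix (Fin n) (Fin n) K) ∈ R) (x : Matrix (Fin n) (Fin n) K) :
    x ∈ R := by
  classical
  have hu : ∀ y : Matrix (Fin n) (Fin n) K, IsUnit y → y ∈ R := by
    rintro y ⟨g, rfl⟩
    exact h g
  have h1 : ∀ i j : Fin n, i ≠ j → ∀ c : K, Matrix.single i j c ∈ R := by
    intro i j hij c
    have h2 : Matrix.single i j c = Matrix.transvection i j c + (-1) := by
      rw [Matrix.transvection]
      abel
    rw [h2]
    apply R.add_mem
    · apply hu
      rw [Matrix.isUnit_iff_isUnit_det, Matrix.det_transvection_of_ne i j hij c]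
      exact isUnit_one
    · apply hu
      exact isUnit_one.neg
  have h3 : ∀ i j : Fin n, ∀ c : K, Matrix.single i j c ∈ R := by
    intro i j c
    by_cases hij : i = j
    · subst hij
      by_cases hk : ∃ k, i ≠ k
      · obtain ⟨k, hk⟩ := hk
        have h4 : Matrix.single i i c = Matrix.single i k c * Matrix.single k i (1 : K) := by
          rw [Matrix.single_mul_single_same, mul_one]
        rw [h4]
        exact R.mul_mem (h1 i k hk c) (h1 k i hk.symm 1)
      · push Not at hk
        by_cases hc : c = 0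
        · rw [hc, Matrix.single_zero]
          exact R.zero_mem
        · apply hu
          have h5 : Matrix.single i i c = c • (1 : Matrix (Fin n) (Fin n) K) := by
            ext a b
            rw [← hk a, ← hk b]
            simp
          rw [h5, ← Algebra.algebraMap_eq_smul_one]
          exact (isUnit_iff_ne_zero.2 hc).map _
    · exact h1 i j hij c
  rw [Matrix.matrix_eq_sum_single x]
  exact R.sum_mem (fun i _ => R.sum_mem (fun j _ => h3 i j _))

lemma ideal_top (H : AddSubmonoid (Matrix (Fin n) (Fin n) K))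
    (hl : ∀ (g : GL (Fin n) K) (h : Matrix (Fin n) (Fin n) K), h ∈ H →
      (g : Matrix (Fin n) (Fin n) K) * h ∈ H)
    (hr : ∀ (g : GL (Fin n) K) (h : Matrix (Fin n) (Fin n) K), h ∈ H →
      h * (g : Matrix (Fin n) (Fin n) K) ∈ H)
    {d : Matrix (Fin n) (Fin n) K} (hd : d ∈ H) (hd0 : d ≠ 0) (x : Matrix (Fin n) (Fin n) K) :
    x ∈ H := by
  classical
  let Rl : Subsemiring (Matrix (Fin n) (Fin n) K) :=
    { carrier := {r | ∀ h ∈ H, r * h ∈ H}
      mul_mem' := by
        intro r s hr hs h hh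
        rw [mul_assoc]
        exact hr _ (hs h hh)
      one_mem' := by
        intro h hh
        rw [one_mul]
        exact hh
      add_mem' := by
        intro r s hr hs h hh
        rw [add_mul]
        exact H.add_mem (hr h hh) (hs h hh)
      zero_mem' := by
        intro h _
        rw [zero_mul]
        exact H.zero_mem }
  let Rr : Subsemiring (Matrix (Fin n) (Fin n) K) :=
    { carrier := {r | ∀ h ∈ H, h * r ∈ H}
      mul_mem' := by
        intro r s hr hs h hh
        rw [← mul_assoc]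
        exact hs _ (hr h hh)
      one_mem' := by
        intro h hh
        rw [mul_one]
        exact hh
      add_mem' := by
        intro r s hr hs h hh
        rw [mul_add]
        exact H.add_mem (hr h hh) (hs h hh)
      zero_mem' := by
        intro h _
        rw [mul_zero]
        exact H.zero_mem }
  have h1 : ∀ r h : Matrix (Fin n) (Fin n) K, h ∈ H → r * h ∈ H := fun r h hh =>
    subsemiring_top Rl (fun g h hh => hl g h hh) r h hh
  have h2 : ∀ r h : Matrix (Fin n) (Fin n) K, h ∈ H → h * r ∈ H := fun r h hh =>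
    subsemiring_top Rr (fun g h hh => hr g h hh) r h hh
  obtain ⟨k, l, hkl⟩ : ∃ k l, d k l ≠ 0 := by
    by_contra h3
    push Not at h3
    exact hd0 (by ext i j; exact h3 i j)
  have h3 : ∀ i j : Fin n, ∀ c : K, Matrix.single i j c ∈ H := by
    intro i j c
    have h4 : Matrix.single i j c
        = Matrix.single i k (c * (d k l)⁻¹) * d * Matrix.single l j (1 : K) := by
      ext a b
      rw [Matrix.mul_assoc, Matrix.mul_apply]
      rw [Finset.sum_eq_single k]
      · rw [Matrix.mul_apply, Finset.sum_eq_single l]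
        · simp only [Matrix.single_apply]
          by_cases ha : i = a
          · by_cases hb : j = b
            · simp [ha, hb, hkl]
            · simp [hb]
          · simp [ha]
        · intro e _ he
          simp [Matrix.single_apply, he.symm]
        · intro h5
          exact absurd (Finset.mem_univ _) h5
      · intro e _ he
        simp [Matrix.single_apply, he.symm]
      · intro h5
        exact absurd (Finset.mem_univ _) h5
    rw [h4]
    exact h2 _ _ (h1 _ _ hd)
  rw [Matrix.matrix_eq_sum_single x]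
  exact H.sum_mem (fun i _ => H.sum_mem (fun j _ => h3 i j _))

/-- a proper nonempty set grows -/
lemma grow (A : Finset (Matrix (Fin n) (Fin n) K)) (hne : A.Nonempty) (hA : A ≠ Finset.univ)
    (X : Finset (Matrix (Fin n) (Fin n) K)) (hX : 2 ≤ X.card) :
    ∃ a b : GL (Fin n) K, A.card < ((A ×ˢ X).image (fun p => p.1 +
      (a : Matrix (Fin n) (Fin n) K) * p.2 * (b : Matrix (Fin n) (Fin n) K))).card := by
  classical
  by_contra h
  push Not at h
  obtain ⟨x, hx, y, hy, hxy⟩ := Finset.one_lt_card.1 (by omega : 1 < X.card)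
  have h1 : ∀ (a b : GL (Fin n) K), ∀ w ∈ X,
      A.image (fun s => s + (a : Matrix (Fin n) (Fin n) K) * w * (b : Matrix (Fin n) (Fin n) K))
      = (A ×ˢ X).image (fun p => p.1 +
      (a : Matrix (Fin n) (Fin n) K) * p.2 * (b : Matrix (Fin n) (Fin n) K)) := by
    intro a b w hw
    apply Finset.eq_of_subset_of_card_le
    · intro s hs
      rw [Finset.mem_image] at hs ⊢
      obtain ⟨s', hs', rfl⟩ := hs
      exact ⟨(s', w), Finset.mem_product.2 ⟨hs', hw⟩, rfl⟩
    · rw [Finset.card_image_of_injective _ (add_left_injective _)]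
      exact h a b
  have h2 : ∀ (a b : GL (Fin n) K), ∀ s ∈ A,
      s + (a : Matrix (Fin n) (Fin n) K) * (x - y) * (b : Matrix (Fin n) (Fin n) K) ∈ A := by
    intro a b s hs
    have h3 : s + (a : Matrix (Fin n) (Fin n) K) * x * (b : Matrix (Fin n) (Fin n) K) ∈
        A.image (fun s => s + (a : Matrix (Fin n) (Fin n) K) * y *
          (b : Matrix (Fin n) (Fin n) K)) := by
      rw [h1 a b y hy, ← h1 a b x hx]
      exact Finset.mem_image_of_mem _ hs
    rw [Finset.mem_image] at h3
    obtain ⟨s', hs', h4⟩ := h3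
    have h5 : s + (a : Matrix (Fin n) (Fin n) K) * (x - y) * (b : Matrix (Fin n) (Fin n) K)
        = s' := by
      rw [mul_sub, sub_mul, ← add_sub_assoc, ← h4]
      abel
    rw [h5]
    exact hs'
  let H : AddSubmonoid (Matrix (Fin n) (Fin n) K) :=
    { carrier := {h | ∀ (a b : GL (Fin n) K), ∀ s ∈ A,
        s + (a : Matrix (Fin n) (Fin n) K) * h * (b : Matrix (Fin n) (Fin n) K) ∈ A}
      zero_mem' := by
        intro a b s hs
        rw [mul_zero, zero_mul, add_zero]
        exact hs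
      add_mem' := by
        intro u v hu hv a b s hs
        rw [mul_add, add_mul, ← add_assoc]
        exact hv a b _ (hu a b s hs) }
  have h6 := ideal_top H
    (by
      intro g h hh a b s hs
      have := hh (a * g) b s hs
      rw [Units.val_mul] at this
      rw [← mul_assoc]
      exact this)
    (by
      intro g h hh a b s hs
      have := hh a (g * b) s hs
      rw [Units.val_mul] at this
      rw [← mul_assoc, mul_assoc ((a : Matrix (Fin n) (Fin n) K) * h)]
      exact this)
    (d := x - y) h2 (sub_ne_zero.2 hxy)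
  apply hA
  rw [Finset.eq_univ_iff_forall]
  intro z
  obtain ⟨s, hs⟩ := hne
  have h7 := h6 (z - s) 1 1 s hs
  rw [Units.val_one, one_mul, mul_one, add_sub_cancel] at h7
  exact h7

lemma small_aux (k : ℕ) (X : Fin k → Finset (Matrix (Fin n) (Fin n) K))
    (hX : ∀ i, 2 ≤ (X i).card) :
    ∃ a b : Fin k → GL (Fin n) K, k + 1 ≤ (Z X a b).card ∨ Z X a b = Finset.univ := by
  classical
  induction k with
  | zero =>
    refine ⟨fun _ => 1, fun _ => 1, Or.inl ?_⟩
    rw [zero_add, Nat.one_le_iff_ne_zero, Finset.card_ne_zero]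
    refine ⟨0, ?_⟩
    rw [mem_Z]
    exact ⟨fun i => i.elim0, fun i => i.elim0, by simp⟩
  | succ k ih =>
    obtain ⟨a, b, hab⟩ := ih (fun i => X i.castSucc) (fun i => hX _)
    have key : ∀ (a' b' : GL (Fin n) K), ∀ u ∈ Z (fun i => X i.castSucc) a b, ∀ v ∈ X (Fin.last k),
        u + (a' : Matrix (Fin n) (Fin n) K) * v * (b' : Matrix (Fin n) (Fin n) K) ∈
          Z X (Fin.snoc (α := fun _ => GL (Fin n) K) a a')
            (Fin.snoc (α := fun _ => GL (Fin n) K) b b') := by
      intro a' b' u hu v hv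
      rw [mem_Z] at hu ⊢
      obtain ⟨x, hx, hxu⟩ := hu
      refine ⟨Fin.snoc (α := fun _ => Matrix (Fin n) (Fin n) K) x v, ?_, ?_⟩
      · intro i
        refine Fin.lastCases ?_ (fun j => ?_) i
        · rw [Fin.snoc_last]
          exact hv
        · rw [Fin.snoc_castSucc]
          exact hx j
      · rw [Fin.sum_univ_castSucc]
        simp only [Fin.snoc_castSucc, Fin.snoc_last]
        rw [hxu]
    by_cases hZ : Z (fun i => X i.castSucc) a b = Finset.univ
    · obtain ⟨v, hv⟩ : (X (Fin.last k)).Nonempty := by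
        rw [← Finset.card_pos]
        have := hX (Fin.last k)
        omega
      refine ⟨Fin.snoc (α := fun _ => GL (Fin n) K) a 1,
        Fin.snoc (α := fun _ => GL (Fin n) K) b 1, Or.inr ?_⟩
      rw [Finset.eq_univ_iff_forall]
      intro z
      have h1 := key 1 1 (z - v) (by rw [hZ]; exact Finset.mem_univ _) v hv
      rw [Units.val_one, one_mul, mul_one, sub_add_cancel] at h1
      exact h1
    · have h2 : k + 1 ≤ (Z (fun i => X i.castSucc) a b).card := by
        rcases hab with h | h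
        · exact h
        · exact absurd h hZ
      obtain ⟨a', b', h3⟩ := grow (Z (fun i => X i.castSucc) a b)
        (by rw [← Finset.card_pos]; omega) hZ (X (Fin.last k)) (hX _)
      refine ⟨Fin.snoc (α := fun _ => GL (Fin n) K) a a',
        Fin.snoc (α := fun _ => GL (Fin n) K) b b', Or.inl ?_⟩
      have h4 : ((Z (fun i => X i.castSucc) a b) ×ˢ X (Fin.last k)).image (fun p => p.1 +
          (a' : Matrix (Fin n) (Fin n) K) * p.2 * (b' : Matrix (Fin n) (Fin n) K)) ⊆
          Z X (Fin.snoc (α := fun _ => GL (Fin n) K) a a')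
            (Fin.snoc (α := fun _ => GL (Fin n) K) b b') := by
        intro z hz
        rw [Finset.mem_image] at hz
        obtain ⟨⟨u, v⟩, huv, rfl⟩ := hz
        rw [Finset.mem_product] at huv
        exact key a' b' u huv.1 v huv.2
      have h5 := Finset.card_le_card h4
      omega

/-- extension by further nonempty sets -/
lemma extend {k l : ℕ} (X : Fin (k + l) → Finset (Matrix (Fin n) (Fin n) K))
    (hX : ∀ i, (X i).Nonempty)
    (h : ∃ a b : Fin k → GL (Fin n) K, Z (fun i => X (Fin.castAdd l i)) a b = Finset.univ) :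
    ∃ a b : Fin (k + l) → GL (Fin n) K, Z X a b = Finset.univ := by
  classical
  obtain ⟨a, b, hab⟩ := h
  choose w hw using hX
  refine ⟨Fin.append a (fun _ => 1), Fin.append b (fun _ => 1), ?_⟩
  rw [Finset.eq_univ_iff_forall]
  intro z
  have h1 : z - ∑ i : Fin l, w (Fin.natAdd k i) ∈ Z (fun i => X (Fin.castAdd l i)) a b := by
    rw [hab]
    exact Finset.mem_univ _
  rw [mem_Z] at h1 ⊢
  obtain ⟨x, hx, hxz⟩ := h1
  refine ⟨Fin.append x (fun i => w (Fin.natAdd k i)), ?_, ?_⟩
  · intro i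
    refine Fin.addCases (fun j => ?_) (fun j => ?_) i
    · rw [Fin.append_left]
      exact hx j
    · rw [Fin.append_right]
      exact hw _
  · rw [Fin.sum_univ_add]
    simp only [Fin.append_left, Fin.append_right, Units.val_one, one_mul, mul_one]
    rw [hxz, sub_add_cancel]

lemma two_blocks {k l : ℕ} (X : Fin (k + l) → Finset (Matrix (Fin n) (Fin n) K))
    (h1 : ∃ a b : Fin k → GL (Fin n) K, (Fintype.card K : ℝ) ^ (n * n)
      < 2 * ((Z (fun i => X (Fin.castAdd l i)) a b).card : ℝ))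
    (h2 : ∃ a b : Fin l → GL (Fin n) K, (Fintype.card K : ℝ) ^ (n * n)
      < 2 * ((Z (fun i => X (Fin.natAdd k i)) a b).card : ℝ)) :
    ∃ a b : Fin (k + l) → GL (Fin n) K, Z X a b = Finset.univ := by
  classical
  obtain ⟨a, b, hab⟩ := h1
  obtain ⟨a', b', hab'⟩ := h2
  refine ⟨Fin.append a a', Fin.append b b', ?_⟩
  rw [Finset.eq_univ_iff_forall]
  intro z
  obtain ⟨u, hu, v, hv, huv⟩ := cover_of_halves _ _ hab hab' z
  rw [mem_Z] at hu hv ⊢
  obtain ⟨x, hx, hxu⟩ := hu
  obtain ⟨y, hy, hyv⟩ := hv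
  refine ⟨Fin.append x y, ?_, ?_⟩
  · intro i
    refine Fin.addCases (fun j => ?_) (fun j => ?_) i
    · rw [Fin.append_left]
      exact hx j
    · rw [Fin.append_right]
      exact hy j
  · rw [Fin.sum_univ_add]
    simp only [Fin.append_left, Fin.append_right]
    rw [hxu, hyv, huv]

/-- the covering theorem for finsets -/
theorem cover {c : ℝ} (hc : 0 < c) : ∃ μ : ℕ, ∀ (K : Type) [Field K] [Fintype K] [DecidableEq K]
    (n : ℕ), 1 ≤ n → ∀ X : Fin μ → Finset (Matrix (Fin n) (Fin n) K),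
    (∀ i, (Fintype.card K : ℝ) ^ (c * (n : ℝ) ^ 2) ≤ ((X i).card : ℝ)) →
    ∃ a b : Fin μ → GL (Fin n) K, Z X a b = Finset.univ := by
  classical
  set m : ℕ := ⌈12 / c⌉₊ with hm
  have hm1 : 12 ≤ c * m := by
    have h1 : 12 / c ≤ m := Nat.le_ceil _
    rw [div_le_iff₀ hc] at h1
    linarith
  set N₀ : ℕ := (32 ^ m) ^ (32 ^ m) with hN₀
  refine ⟨max (m + m) N₀, ?_⟩
  intro K _ _ _ n hn
  have hq : (2 : ℝ) ≤ (Fintype.card K : ℝ) := by exact_mod_cast Fintype.one_lt_card (α := K)
  have hq0 : (0 : ℝ) < (Fintype.card K : ℝ) := by linarith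
  have hne : ∀ Y : Finset (Matrix (Fin n) (Fin n) K),
      (Fintype.card K : ℝ) ^ (c * (n : ℝ) ^ 2) ≤ (Y.card : ℝ) → 2 ≤ Y.card := by
    intro Y hY
    have h1 : (1 : ℝ) < (Fintype.card K : ℝ) ^ (c * (n : ℝ) ^ 2) := by
      apply Real.one_lt_rpow (by linarith)
      have : (0 : ℝ) < n := by exact_mod_cast hn
      positivity
    have h2 : (1 : ℝ) < (Y.card : ℝ) := lt_of_lt_of_le h1 hY
    exact_mod_cast h2
  by_cases hl : (32 : ℝ) ^ m < (Fintype.card K : ℝ) ^ n
  · have h1 : ∀ μ : ℕ, m + m ≤ μ → ∀ X : Fin μ → Finset (Matrix (Fin n) (Fin n) K),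
        (∀ i, (Fintype.card K : ℝ) ^ (c * (n : ℝ) ^ 2) ≤ ((X i).card : ℝ)) →
        ∃ a b : Fin μ → GL (Fin n) K, Z X a b = Finset.univ := by
      intro μ hμ X hX
      obtain ⟨l, rfl⟩ := Nat.exists_eq_add_of_le hμ
      apply extend X (fun i => by
        rw [← Finset.card_pos]
        have := hne _ (hX i)
        omega)
      apply two_blocks
      · exact half_of_large hc (by rw [Fintype.card_fin]; exact hm1)
          (by rw [Fintype.card_fin]; exact hl) _ (fun i => hX _)
      · exact half_of_large hc (by rw [Fintype.card_fin]; exact hm1)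
          (by rw [Fintype.card_fin]; exact hl) _ (fun i => hX _)
    exact h1 _ (le_max_left _ _)
  · have h1 : ∀ μ : ℕ, N₀ ≤ μ → ∀ X : Fin μ → Finset (Matrix (Fin n) (Fin n) K),
        (∀ i, (Fintype.card K : ℝ) ^ (c * (n : ℝ) ^ 2) ≤ ((X i).card : ℝ)) →
        ∃ a b : Fin μ → GL (Fin n) K, Z X a b = Finset.univ := by
      intro μ hμ X hX
      obtain ⟨a, b, hab⟩ := small_aux μ X (fun i => hne _ (hX i))
      refine ⟨a, b, ?_⟩
      rcases hab with hab | hab
      · exfalso
        push Not at hl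
        have hl' : Fintype.card K ^ n ≤ 32 ^ m := by exact_mod_cast hl
        have hq' : 2 ≤ Fintype.card K := Fintype.one_lt_card
        have h2 : n ≤ 32 ^ m := by
          have h3 : n < 2 ^ n := Nat.lt_two_pow_self
          have h4 : 2 ^ n ≤ Fintype.card K ^ n := Nat.pow_le_pow_left hq' n
          omega
        have h5 : Fintype.card K ^ (n * n) ≤ N₀ := by
          rw [pow_mul, hN₀]
          exact (Nat.pow_le_pow_left hl' n).trans
            (Nat.pow_le_pow_right (by positivity) h2)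
        have h6 : (Z X a b).card ≤ Fintype.card K ^ (n * n) := by
          rw [← card_mat (K := K) n n]
          exact Finset.card_le_univ _
        omega
      · exact hab
    exact h1 _ (le_max_right _ _)

end Pool.Q121.TS
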