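import Pool.Agent.Q121.TS.Rank

/-!
Second moment of the exponential sums of twisted subsets of `M_n(F_q)`.
-/

namespace Pool.Q121.TS

open Matrix Finset

variable {K : Type*} [Field K] [Fintype K] [DecidableEq K] {n : ℕ}

omit [DecidableEq K] in
lemma exists_char (K : Type*) [Field K] [Fintype K] : ∃ ψ : AddChar K ℂ, ∃ t, ψ t ≠ 1 := by
  obtain ⟨ψ, h⟩ := (AddChar.exists_apply_ne_zero (a := (1 : K))).2 one_ne_zero
  exact ⟨ψ, 1, h⟩

lemma sum_char {ψ : AddChar K ℂ} (hψ : ∃ t, ψ t ≠ 1) (y : Matrix (Fin n) (Fin n) K) :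
    ∑ b : Matrix (Fin n) (Fin n) K, ψ (trace (b * y))
      = if y = 0 then ((Fintype.card K : ℂ) ^ (n * n)) else 0 := by
  classical
  split_ifs with h
  · subst h
    simp [card_mat]
  · let φ : Matrix (Fin n) (Fin n) K →+ K :=
      (Matrix.traceAddMonoidHom (Fin n) K).comp (AddMonoidHom.mulRight y)
    have h1 : ∑ b : Matrix (Fin n) (Fin n) K, (ψ.compAddMonoidHom φ) b = 0 := by
      rw [AddChar.sum_eq_zero_iff_ne_zero]
      intro h2
      obtain ⟨t, ht⟩ := hψ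
      obtain ⟨i, j, hij⟩ : ∃ i j, y i j ≠ 0 := by
        by_contra h3
        push Not at h3
        exact h (by ext i j; exact h3 i j)
      apply ht
      have h4 := DFunLike.congr_fun h2 (Matrix.single j i (t * (y i j)⁻¹))
      rw [AddChar.compAddMonoidHom_apply, AddChar.zero_apply] at h4
      have h5 : φ (Matrix.single j i (t * (y i j)⁻¹)) = t := by
        show trace (Matrix.single j i (t * (y i j)⁻¹) * y) = t
        rw [Matrix.trace_single_mul]
        rw [smul_eq_mul, mul_assoc, inv_mul_cancel₀ hij, mul_one]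
      rw [h5] at h4
      exact h4
    exact h1

lemma normsq_sum {α : Type*} (ψ : AddChar K ℂ) (T : Finset α)
    (g : α → Matrix (Fin n) (Fin n) K) (ξ : Matrix (Fin n) (Fin n) K) :
    ((‖∑ x ∈ T, ψ (trace (ξ * g x))‖ ^ 2 : ℝ) : ℂ)
      = ∑ x ∈ T, ∑ y ∈ T, ψ (trace (ξ * (g x - g y))) := by
  push_cast
  rw [← Complex.mul_conj', map_sum, Finset.sum_mul_sum]
  refine Finset.sum_congr rfl (fun x _ => Finset.sum_congr rfl (fun y _ => ?_))
  rw [← AddChar.map_neg_eq_conj, ← AddChar.map_add_eq_mul]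
  congr 1
  rw [mul_sub, Matrix.trace_sub, sub_eq_add_neg]

/-- the exponential sum of `aXb` -/
noncomputable def S (ψ : AddChar K ℂ) (X : Finset (Matrix (Fin n) (Fin n) K))
    (ξ a b : Matrix (Fin n) (Fin n) K) : ℂ :=
  ∑ x ∈ X, ψ (trace (ξ * (a * x * b)))

/-- number of annihilating triples -/
def E (X : Finset (Matrix (Fin n) (Fin n) K)) (ξ : Matrix (Fin n) (Fin n) K) : ℕ :=
  ∑ x ∈ X, ∑ y ∈ X,
    (Finset.univ.filter (fun a : Matrix (Fin n) (Fin n) K => ξ * a * (x - y) = 0)).card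

lemma sum_all {ψ : AddChar K ℂ} (hψ : ∃ t, ψ t ≠ 1) (X : Finset (Matrix (Fin n) (Fin n) K))
    (ξ : Matrix (Fin n) (Fin n) K) :
    ∑ a : Matrix (Fin n) (Fin n) K, ∑ b : Matrix (Fin n) (Fin n) K, ‖S ψ X ξ a b‖ ^ 2
      = (Fintype.card K : ℝ) ^ (n * n) * E X ξ := by
  have h1 : ((∑ a : Matrix (Fin n) (Fin n) K, ∑ b : Matrix (Fin n) (Fin n) K,
      ‖S ψ X ξ a b‖ ^ 2 : ℝ) : ℂ) = (((Fintype.card K : ℝ) ^ (n * n) * E X ξ : ℝ) : ℂ) := by
    have h2 : ∀ a b : Matrix (Fin n) (Fin n) K, ((‖S ψ X ξ a b‖ ^ 2 : ℝ) : ℂ)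
        = ∑ x ∈ X, ∑ y ∈ X, ψ (trace (b * (ξ * a * (x - y)))) := by
      intro a b
      rw [S, normsq_sum ψ X (fun x => a * x * b) ξ]
      refine Finset.sum_congr rfl (fun x _ => Finset.sum_congr rfl (fun y _ => ?_))
      congr 1
      rw [Matrix.trace_mul_comm b]
      congr 1
      simp only [mul_sub, sub_mul, Matrix.mul_assoc]
    rw [Complex.ofReal_sum]
    simp_rw [Complex.ofReal_sum]
    rw [Finset.sum_congr rfl (fun a _ => Finset.sum_congr rfl (fun b _ => h2 a b))]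
    have h3 : ∀ a : Matrix (Fin n) (Fin n) K,
        ∑ b : Matrix (Fin n) (Fin n) K, ∑ x ∈ X, ∑ y ∈ X, ψ (trace (b * (ξ * a * (x - y))))
        = ∑ x ∈ X, ∑ y ∈ X, (if ξ * a * (x - y) = 0 then ((Fintype.card K : ℂ) ^ (n * n)) else 0) := by
      intro a
      rw [Finset.sum_comm]
      refine Finset.sum_congr rfl (fun x _ => ?_)
      rw [Finset.sum_comm]
      exact Finset.sum_congr rfl (fun y _ => sum_char hψ _)
    rw [Finset.sum_congr rfl (fun a _ => h3 a), Finset.sum_comm]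
    rw [E]
    push_cast
    rw [Finset.mul_sum]
    refine Finset.sum_congr rfl (fun x _ => ?_)
    rw [Finset.sum_comm, Finset.mul_sum]
    refine Finset.sum_congr rfl (fun y _ => ?_)
    rw [← Finset.sum_filter, Finset.sum_const, nsmul_eq_mul, mul_comm]
  exact_mod_cast h1

/-- pointwise bound of the kernel size -/
lemma card_ker_le (ξ d : Matrix (Fin n) (Fin n) K) (t : ℝ) :
    ((Finset.univ.filter (fun a : Matrix (Fin n) (Fin n) K => ξ * a * d = 0)).card : ℝ)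
      ≤ (Fintype.card K : ℝ) ^ (n * n) *
        ((if (d.rank : ℝ) ≤ t then 1 else 0) + (Fintype.card K : ℝ) ^ (-((ξ.rank : ℝ) * t))) := by
  have hq : (2 : ℝ) ≤ (Fintype.card K : ℝ) := by exact_mod_cast Fintype.one_lt_card (α := K)
  have hq0 : (0 : ℝ) < (Fintype.card K : ℝ) := by linarith
  have hp : (0 : ℝ) < (Fintype.card K : ℝ) ^ (-((ξ.rank : ℝ) * t)) := Real.rpow_pos_of_pos hq0 _
  have hN : (0 : ℝ) < (Fintype.card K : ℝ) ^ (n * n) := by positivity
  split_ifs with h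
  · have h1 : ((Finset.univ.filter
        (fun a : Matrix (Fin n) (Fin n) K => ξ * a * d = 0)).card : ℝ)
        ≤ (Fintype.card K : ℝ) ^ (n * n) := by
      have h2 := Finset.card_filter_le (Finset.univ : Finset (Matrix (Fin n) (Fin n) K))
        (fun a : Matrix (Fin n) (Fin n) K => ξ * a * d = 0)
      rw [Finset.card_univ, card_mat] at h2
      exact_mod_cast h2
    nlinarith
  · have h1 := card_ker ξ d
    have h2 : ((Finset.univ.filter
        (fun a : Matrix (Fin n) (Fin n) K => ξ * a * d = 0)).card : ℝ) *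
        (Fintype.card K : ℝ) ^ ((ξ.rank : ℝ) * (d.rank : ℝ)) = (Fintype.card K : ℝ) ^ (n * n) := by
      rw [← Nat.cast_mul ξ.rank d.rank, Real.rpow_natCast]
      exact_mod_cast h1
    have h3 : (0 : ℝ) < (Fintype.card K : ℝ) ^ ((ξ.rank : ℝ) * (d.rank : ℝ)) :=
      Real.rpow_pos_of_pos hq0 _
    have h4 : ((Finset.univ.filter
        (fun a : Matrix (Fin n) (Fin n) K => ξ * a * d = 0)).card : ℝ)
        = (Fintype.card K : ℝ) ^ (n * n) *
          (Fintype.card K : ℝ) ^ (-((ξ.rank : ℝ) * (d.rank : ℝ))) := by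
      rw [Real.rpow_neg hq0.le, ← h2]
      field_simp
    rw [h4, zero_add]
    apply mul_le_mul_of_nonneg_left _ hN.le
    apply Real.rpow_le_rpow_of_exponent_le (by linarith)
    push Not at h
    have : (0 : ℝ) ≤ ξ.rank := Nat.cast_nonneg _
    nlinarith

lemma card_rank_le_real (t : ℝ) (ht : 0 ≤ t) :
    ((Finset.univ.filter (fun d : Matrix (Fin n) (Fin n) K => (d.rank : ℝ) ≤ t)).card : ℝ)
      ≤ (Fintype.card K : ℝ) ^ (2 * n * t) := by
  have hq : (2 : ℝ) ≤ (Fintype.card K : ℝ) := by exact_mod_cast Fintype.one_lt_card (α := K)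
  have h1 : (Finset.univ.filter (fun d : Matrix (Fin n) (Fin n) K => (d.rank : ℝ) ≤ t))
      = (Finset.univ.filter (fun d : Matrix (Fin n) (Fin n) K => d.rank ≤ ⌊t⌋₊)) := by
    ext d
    simp only [Finset.mem_filter, Finset.mem_univ, true_and]
    rw [Nat.le_floor_iff ht]
  rw [h1]
  have h2 := card_rank_le (K := K) (n := n) ⌊t⌋₊
  have h3 : (((Finset.univ.filter (fun d : Matrix (Fin n) (Fin n) K => d.rank ≤ ⌊t⌋₊)).card : ℕ) : ℝ)
      ≤ (Fintype.card K : ℝ) ^ ((2 * n * ⌊t⌋₊ : ℕ) : ℝ) := by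
    rw [Real.rpow_natCast]
    exact_mod_cast h2
  refine h3.trans (Real.rpow_le_rpow_of_exponent_le (by linarith) ?_)
  push_cast
  have := Nat.floor_le ht
  exact mul_le_mul_of_nonneg_left this (by positivity)

/-- bound of the energy -/
lemma E_le {c : ℝ} (hc : 0 < c) (X : Finset (Matrix (Fin n) (Fin n) K))
    (hX : (Fintype.card K : ℝ) ^ (c * (n : ℝ) ^ 2) ≤ (X.card : ℝ)) (ξ : Matrix (Fin n) (Fin n) K) :
    (E X ξ : ℝ) ≤ 2 * (Fintype.card K : ℝ) ^ (n * n) * (X.card : ℝ) ^ 2 *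
      (Fintype.card K : ℝ) ^ (-((ξ.rank : ℝ) * (c * n / 3))) := by
  have hq : (2 : ℝ) ≤ (Fintype.card K : ℝ) := by exact_mod_cast Fintype.one_lt_card (α := K)
  have hq0 : (0 : ℝ) < (Fintype.card K : ℝ) := by linarith
  set Q : ℝ := (Fintype.card K : ℝ) with hQ
  set t : ℝ := c * n / 3 with ht
  have ht0 : 0 ≤ t := by positivity
  set u : ℝ := Q ^ (-((ξ.rank : ℝ) * t)) with hu
  have hN : (0 : ℝ) < Q ^ (n * n) := by positivity
  have h1 : (E X ξ : ℝ) ≤ ∑ x ∈ X, ∑ y ∈ X, Q ^ (n * n) *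
      ((if ((x - y).rank : ℝ) ≤ t then 1 else 0) + u) := by
    rw [E]
    push_cast
    exact Finset.sum_le_sum (fun x _ => Finset.sum_le_sum (fun y _ => card_ker_le ξ (x - y) t))
  have h2 : ∀ x ∈ X, ∑ y ∈ X, Q ^ (n * n) * ((if ((x - y).rank : ℝ) ≤ t then (1 : ℝ) else 0) + u)
      ≤ Q ^ (n * n) * ((X.card : ℝ) * u + X.card * u) := by
    intro x _
    rw [← Finset.mul_sum, Finset.sum_add_distrib, Finset.sum_const, nsmul_eq_mul]
    apply mul_le_mul_of_nonneg_left _ hN.le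
    apply add_le_add_left
    rw [← Finset.sum_filter, Finset.sum_const, nsmul_eq_mul, mul_one]
    have h3 : (X.filter (fun y => ((x - y).rank : ℝ) ≤ t)).card ≤
        (Finset.univ.filter (fun d : Matrix (Fin n) (Fin n) K => (d.rank : ℝ) ≤ t)).card := by
      refine Finset.card_le_card_of_injOn (fun y => x - y) ?_ ?_
      · intro y hy
        rw [Finset.mem_coe, Finset.mem_filter] at hy ⊢
        exact ⟨Finset.mem_univ _, hy.2⟩
      · intro y _ y' _ h
        exact sub_right_injective h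
    have h4 : ((X.filter (fun y => ((x - y).rank : ℝ) ≤ t)).card : ℝ) ≤ Q ^ (2 * n * t) :=
      le_trans (by exact_mod_cast h3) (card_rank_le_real t ht0)
    refine h4.trans ?_
    have h5 : Q ^ (2 * n * t) = Q ^ (c * (n : ℝ) ^ 2) * Q ^ (-((n : ℝ) * t)) := by
      rw [← Real.rpow_add hq0]
      congr 1
      rw [ht]
      ring
    rw [h5]
    apply mul_le_mul hX _ (Real.rpow_nonneg hq0.le _) (by positivity)
    rw [hu]
    apply Real.rpow_le_rpow_of_exponent_le (by linarith)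
    have h6 : (ξ.rank : ℝ) ≤ n := by
      have := Matrix.rank_le_width ξ
      exact_mod_cast this
    nlinarith
  refine h1.trans ((Finset.sum_le_sum h2).trans ?_)
  rw [Finset.sum_const, nsmul_eq_mul]
  apply le_of_eq
  ring

/-- second moment over `GL × GL` -/
lemma sum_GL_le {ψ : AddChar K ℂ} (hψ : ∃ t, ψ t ≠ 1) {c : ℝ} (hc : 0 < c)
    (X : Finset (Matrix (Fin n) (Fin n) K))
    (hX : (Fintype.card K : ℝ) ^ (c * (n : ℝ) ^ 2) ≤ (X.card : ℝ)) (ξ : Matrix (Fin n) (Fin n) K) :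
    ∑ p : GL (Fin n) K × GL (Fin n) K,
      ‖S ψ X ξ (p.1 : Matrix (Fin n) (Fin n) K) (p.2 : Matrix (Fin n) (Fin n) K)‖ ^ 2
      ≤ 32 * ((Fintype.card (GL (Fin n) K) : ℝ) ^ 2 * (X.card : ℝ) ^ 2) *
        (Fintype.card K : ℝ) ^ (-((ξ.rank : ℝ) * (c * n / 3))) := by
  have hq : (2 : ℝ) ≤ (Fintype.card K : ℝ) := by exact_mod_cast Fintype.one_lt_card (α := K)
  have hq0 : (0 : ℝ) < (Fintype.card K : ℝ) := by linarith
  have h1 : ∑ p : GL (Fin n) K × GL (Fin n) K,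
      ‖S ψ X ξ (p.1 : Matrix (Fin n) (Fin n) K) (p.2 : Matrix (Fin n) (Fin n) K)‖ ^ 2
      ≤ ∑ p : Matrix (Fin n) (Fin n) K × Matrix (Fin n) (Fin n) K, ‖S ψ X ξ p.1 p.2‖ ^ 2 := by
    let e : GL (Fin n) K × GL (Fin n) K ↪ Matrix (Fin n) (Fin n) K × Matrix (Fin n) (Fin n) K :=
      ⟨fun p => ((p.1 : Matrix (Fin n) (Fin n) K), (p.2 : Matrix (Fin n) (Fin n) K)), by
        rintro ⟨a, b⟩ ⟨a', b'⟩ h
        simp only [Prod.mk.injEq] at h
        exact Prod.ext (Units.ext h.1) (Units.ext h.2)⟩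
    have h2 : ∑ p : GL (Fin n) K × GL (Fin n) K,
        ‖S ψ X ξ (p.1 : Matrix (Fin n) (Fin n) K) (p.2 : Matrix (Fin n) (Fin n) K)‖ ^ 2
        = ∑ p ∈ (Finset.univ : Finset (GL (Fin n) K × GL (Fin n) K)).map e,
          ‖S ψ X ξ p.1 p.2‖ ^ 2 := by
      rw [Finset.sum_map]
      rfl
    rw [h2]
    exact Finset.sum_le_sum_of_subset_of_nonneg (Finset.subset_univ _)
      (fun p _ _ => by positivity)
  refine h1.trans ?_
  rw [Fintype.sum_prod_type, sum_all hψ]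
  have h3 := E_le hc X hX ξ
  have h4 : (Fintype.card K : ℝ) ^ (n * n) ≤ 4 * (Fintype.card (GL (Fin n) K) : ℝ) := by
    exact_mod_cast card_GL_ge (K := K) n
  set Q : ℝ := (Fintype.card K : ℝ) with hQ
  set G : ℝ := (Fintype.card (GL (Fin n) K) : ℝ) with hG
  set u : ℝ := Q ^ (-((ξ.rank : ℝ) * (c * n / 3))) with hu
  have hu0 : 0 < u := Real.rpow_pos_of_pos hq0 _
  have hN : (0 : ℝ) < Q ^ (n * n) := by positivity
  have h5 : (Q ^ (n * n)) ^ 2 ≤ (4 * G) ^ 2 := pow_le_pow_left₀ hN.le h4 2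
  calc Q ^ (n * n) * (E X ξ : ℝ) ≤ Q ^ (n * n) * (2 * Q ^ (n * n) * (X.card : ℝ) ^ 2 * u) :=
        mul_le_mul_of_nonneg_left h3 hN.le
    _ = (Q ^ (n * n)) ^ 2 * (2 * (X.card : ℝ) ^ 2 * u) := by ring
    _ ≤ (4 * G) ^ 2 * (2 * (X.card : ℝ) ^ 2 * u) :=
        mul_le_mul_of_nonneg_right h5 (by positivity)
    _ = 32 * (G ^ 2 * (X.card : ℝ) ^ 2) * u := by ring

/-- summation over nonzero `ξ` -/
lemma sum_rank_le (s : ℝ) (hs : 4 * (n : ℝ) ≤ s) :
    ∑ ξ ∈ (Finset.univ : Finset (Matrix (Fin n) (Fin n) K)).erase 0,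
      (Fintype.card K : ℝ) ^ (-((ξ.rank : ℝ) * s)) ≤ 1 / (Fintype.card K : ℝ) ^ n := by
  classical
  have hq : (2 : ℝ) ≤ (Fintype.card K : ℝ) := by exact_mod_cast Fintype.one_lt_card (α := K)
  have hq0 : (0 : ℝ) < (Fintype.card K : ℝ) := by linarith
  set Q : ℝ := (Fintype.card K : ℝ) with hQ
  have h1 : ∀ ξ ∈ (Finset.univ : Finset (Matrix (Fin n) (Fin n) K)).erase 0,
      ξ.rank ∈ Finset.Icc 1 n := by
    intro ξ hξ
    rw [Finset.mem_erase] at hξ
    rw [Finset.mem_Icc]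
    refine ⟨?_, Matrix.rank_le_width ξ⟩
    by_contra h
    have h2 : ξ.rank ≤ 0 := by omega
    obtain ⟨U, V, hUV⟩ := exists_factor ξ h2
    apply hξ.1
    rw [← hUV]
    ext i k
    simp [Matrix.mul_apply]
  rw [← Finset.sum_fiberwise_of_maps_to h1]
  have h3 : ∀ j ∈ Finset.Icc 1 n,
      ∑ ξ ∈ ((Finset.univ : Finset (Matrix (Fin n) (Fin n) K)).erase 0).filter
        (fun ξ => ξ.rank = j), Q ^ (-((ξ.rank : ℝ) * s)) ≤ 1 / Q ^ (2 * n) := by
    intro j hj
    rw [Finset.mem_Icc] at hj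
    have h4 : ∀ ξ ∈ ((Finset.univ : Finset (Matrix (Fin n) (Fin n) K)).erase 0).filter
        (fun ξ => ξ.rank = j), Q ^ (-((ξ.rank : ℝ) * s)) = Q ^ (-((j : ℝ) * s)) := by
      intro ξ hξ
      rw [Finset.mem_filter] at hξ
      rw [hξ.2]
    rw [Finset.sum_congr rfl h4, Finset.sum_const, nsmul_eq_mul]
    have h5 : (((Finset.univ : Finset (Matrix (Fin n) (Fin n) K)).erase 0).filter
        (fun ξ => ξ.rank = j)).card ≤ Fintype.card K ^ (2 * n * j) := by
      refine le_trans (Finset.card_le_card ?_) (card_rank_le (K := K) (n := n) j)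
      intro ξ hξ
      rw [Finset.mem_filter] at hξ ⊢
      exact ⟨Finset.mem_univ _, hξ.2.le⟩
    have h6 : ((((Finset.univ : Finset (Matrix (Fin n) (Fin n) K)).erase 0).filter
        (fun ξ => ξ.rank = j)).card : ℝ) ≤ Q ^ ((2 * n * j : ℕ) : ℝ) := by
      rw [Real.rpow_natCast]
      have h5' := (Nat.cast_le (α := ℝ)).2 h5
      rw [Nat.cast_pow] at h5'
      exact h5'
    have h7 : (1 : ℝ) / Q ^ (2 * n) = Q ^ (-((2 * n : ℕ) : ℝ)) := by
      rw [Real.rpow_neg hq0.le, Real.rpow_natCast, one_div]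
    rw [h7]
    refine (mul_le_mul_of_nonneg_right h6 (Real.rpow_nonneg hq0.le _)).trans ?_
    rw [← Real.rpow_add hq0]
    apply Real.rpow_le_rpow_of_exponent_le (by linarith)
    push_cast
    have hj1 : (1 : ℝ) ≤ j := by exact_mod_cast hj.1
    have hn0 : (0 : ℝ) ≤ n := Nat.cast_nonneg _
    nlinarith
  refine (Finset.sum_le_sum h3).trans ?_
  rw [Finset.sum_const, nsmul_eq_mul, Nat.card_Icc, Nat.add_sub_cancel]
  have h8 : (n : ℝ) ≤ Q ^ n := by
    have h9 : n < 2 ^ n := Nat.lt_two_pow_self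
    have h10 : (n : ℝ) ≤ 2 ^ n := by exact_mod_cast h9.le
    exact h10.trans (pow_le_pow_left₀ (by norm_num) hq n)
  rw [two_mul, pow_add, mul_one_div, div_le_div_iff₀ (by positivity) (by positivity)]
  have : (0 : ℝ) < Q ^ n := by positivity
  nlinarith

end Pool.Q121.TS
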