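import Mathlib

/-!
Counting matrices over a finite field by rank.
-/

namespace Pool.Q121.TS

open Matrix Finset

variable {K : Type*} [Field K] [Fintype K] [DecidableEq K] {n : ℕ}

/-- diagonal form with invertible outer factors -/
lemma exists_diag (M : Matrix (Fin n) (Fin n) K) :
    ∃ (P Q : Matrix (Fin n) (Fin n) K) (D : Fin n → K), P.det = 1 ∧ Q.det = 1 ∧
      M = P * diagonal D * Q := by
  obtain ⟨L, L', D, h⟩ := Matrix.Pivot.exists_list_transvec_mul_diagonal_mul_list_transvec M
  exact ⟨_, _, D, TransvectionStruct.det_toMatrix_prod L, TransvectionStruct.det_toMatrix_prod L', h⟩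

lemma rank_of_diag {P Q : Matrix (Fin n) (Fin n) K} {D : Fin n → K} (hP : P.det = 1)
    (hQ : Q.det = 1) : (P * diagonal D * Q).rank = Fintype.card {i // D i ≠ 0} := by
  rw [Matrix.rank_mul_eq_left_of_isUnit_det _ _ (by rw [hQ]; exact isUnit_one),
    Matrix.rank_mul_eq_right_of_isUnit_det _ _ (by rw [hP]; exact isUnit_one),
    Matrix.rank_diagonal]

/-- number of matrices vanishing on a product of supports -/
lemma card_diag_ker (D D' : Fin n → K) :
    (Finset.univ.filter (fun a : Matrix (Fin n) (Fin n) K => diagonal D * a * diagonal D' = 0)).card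
      * Fintype.card K ^ (Fintype.card {i // D i ≠ 0} * Fintype.card {i // D' i ≠ 0})
      = Fintype.card K ^ (n * n) := by
  classical
  set t : Fin n × Fin n → Finset K := fun p => if D p.1 ≠ 0 ∧ D' p.2 ≠ 0 then {0} else Finset.univ
    with ht
  have h1 : (Finset.univ.filter
      (fun a : Matrix (Fin n) (Fin n) K => diagonal D * a * diagonal D' = 0)).card
      = (Fintype.piFinset t).card := by
    refine Finset.card_bij (fun a _ => fun p => a p.1 p.2) ?_ ?_ ?_
    · intro a ha
      rw [Finset.mem_filter] at ha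
      rw [Fintype.mem_piFinset]
      intro p
      have h2 := congrFun (congrFun ha.2 p.1) p.2
      rw [Matrix.mul_diagonal, Matrix.diagonal_mul] at h2
      simp only [ht]
      split_ifs with h
      · rw [Finset.mem_singleton]
        simpa [h.1, h.2] using h2
      · exact Finset.mem_univ _
    · intro a _ b _ hab
      ext i j
      exact congrFun hab (i, j)
    · intro f hf
      rw [Fintype.mem_piFinset] at hf
      refine ⟨fun i j => f (i, j), ?_, by ext p; rfl⟩
      rw [Finset.mem_filter]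
      refine ⟨Finset.mem_univ _, ?_⟩
      ext i j
      rw [Matrix.mul_diagonal, Matrix.diagonal_mul]
      have h3 := hf (i, j)
      simp only [ht] at h3
      split_ifs at h3 with h
      · rw [Finset.mem_singleton] at h3
        simp [h3]
      · by_cases h4 : D i = 0
        · simp [h4]
        · have h5 : D' j = 0 := by
            by_contra h6
            exact h ⟨h4, h6⟩
          simp [h5]
  rw [h1, Fintype.card_piFinset]
  have h2 : Fintype.card K ^ (Fintype.card {i // D i ≠ 0} * Fintype.card {i // D' i ≠ 0})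
      = ∏ p : Fin n × Fin n, (if D p.1 ≠ 0 ∧ D' p.2 ≠ 0 then Fintype.card K else 1) := by
    rw [Finset.prod_ite, Finset.prod_const, Finset.prod_const_one, mul_one]
    congr 1
    rw [Fintype.card_subtype, Fintype.card_subtype, ← Finset.card_product]
    congr 1
    ext p
    simp
  rw [h2, ← Finset.prod_mul_distrib]
  have h3 : ∀ p : Fin n × Fin n, ((t p).card * (if D p.1 ≠ 0 ∧ D' p.2 ≠ 0 then Fintype.card K else 1))
      = Fintype.card K := by
    intro p
    simp only [ht]
    split_ifs <;> simp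
  rw [Finset.prod_congr rfl (fun p _ => h3 p), Finset.prod_const]
  congr 1
  rw [Finset.card_univ, Fintype.card_prod, Fintype.card_fin]

/-- `#{a : ξ a d = 0} = q^(n^2 - rk ξ rk d)` -/
lemma card_ker (ξ d : Matrix (Fin n) (Fin n) K) :
    (Finset.univ.filter (fun a : Matrix (Fin n) (Fin n) K => ξ * a * d = 0)).card
      * Fintype.card K ^ (ξ.rank * d.rank) = Fintype.card K ^ (n * n) := by
  classical
  obtain ⟨P, Q, D, hP, hQ, rfl⟩ := exists_diag ξ
  obtain ⟨P', Q', D', hP', hQ', rfl⟩ := exists_diag d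
  rw [rank_of_diag hP hQ, rank_of_diag hP' hQ', ← card_diag_ker D D']
  congr 1
  have uP : IsUnit P := (Matrix.isUnit_iff_isUnit_det _).2 (by rw [hP]; exact isUnit_one)
  have uQ : IsUnit Q := (Matrix.isUnit_iff_isUnit_det _).2 (by rw [hQ]; exact isUnit_one)
  have uP' : IsUnit P' := (Matrix.isUnit_iff_isUnit_det _).2 (by rw [hP']; exact isUnit_one)
  have uQ' : IsUnit Q' := (Matrix.isUnit_iff_isUnit_det _).2 (by rw [hQ']; exact isUnit_one)
  obtain ⟨u, hu⟩ := uQ
  obtain ⟨v, hv⟩ := uP'
  refine Finset.card_bij (fun a _ => Q * a * P') ?_ ?_ ?_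
  · intro a ha
    rw [Finset.mem_filter] at ha ⊢
    refine ⟨Finset.mem_univ _, ?_⟩
    have h1 : P * (diagonal D * (Q * a * P') * diagonal D') * Q' = 0 := by
      have := ha.2
      simpa only [Matrix.mul_assoc] using this
    have h2 : P * (diagonal D * (Q * a * P') * diagonal D') = 0 := (uQ'.mul_left_eq_zero).1 h1
    exact (uP.mul_right_eq_zero).1 h2
  · intro a _ b _ hab
    have hab' : Q * a * P' = Q * b * P' := hab
    rw [← hu, ← hv] at hab'
    have h1 := v.isUnit.mul_right_cancel hab'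
    exact u.isUnit.mul_left_cancel h1
  · intro b hb
    rw [Finset.mem_filter] at hb
    refine ⟨(↑(u⁻¹) : Matrix (Fin n) (Fin n) K) * b * (↑(v⁻¹) : Matrix (Fin n) (Fin n) K), ?_, ?_⟩
    · rw [Finset.mem_filter]
      refine ⟨Finset.mem_univ _, ?_⟩
      rw [← hu, ← hv]
      calc P * diagonal D * ↑u * (↑(u⁻¹) * b * ↑(v⁻¹)) * (↑v * diagonal D' * Q')
          = P * (diagonal D * ((↑u * ↑(u⁻¹)) * b * (↑(v⁻¹) * ↑v)) * diagonal D') * Q' := by
            simp only [Matrix.mul_assoc]
        _ = P * (diagonal D * b * diagonal D') * Q' := by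
            rw [Units.mul_inv, Units.inv_mul, one_mul, mul_one]
        _ = 0 := by rw [hb.2]; simp
    · rw [← hu, ← hv]
      calc (↑u : Matrix (Fin n) (Fin n) K) * (↑(u⁻¹) * b * ↑(v⁻¹)) * ↑v
          = (↑u * ↑(u⁻¹)) * b * (↑(v⁻¹) * ↑v) := by simp only [Matrix.mul_assoc]
        _ = b := by rw [Units.mul_inv, Units.inv_mul, one_mul, mul_one]

/-- every matrix of rank at most `r` is a product of an `n × r` and an `r × n` matrix -/
lemma exists_factor (d : Matrix (Fin n) (Fin n) K) {r : ℕ} (h : d.rank ≤ r) :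
    ∃ (U : Matrix (Fin n) (Fin r) K) (V : Matrix (Fin r) (Fin n) K), U * V = d := by
  classical
  set W := LinearMap.range d.mulVecLin with hW
  have hr : Module.finrank K W ≤ r := h
  let b := Module.finBasis K W
  let w : Fin n → W := fun k => ⟨d.mulVecLin (Pi.single k 1), LinearMap.mem_range_self _ _⟩
  have hw : ∀ k i, (w k : Fin n → K) i = d i k := by
    intro k i
    show d.mulVecLin (Pi.single k 1) i = d i k
    rw [Matrix.mulVecLin_apply, Matrix.mulVec_single_one]
    rfl
  clear_value w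
  refine ⟨fun i s => if hs : (s : ℕ) < Module.finrank K W then ((b ⟨s, hs⟩ : W) : Fin n → K) i else 0,
    fun s k => if hs : (s : ℕ) < Module.finrank K W then b.repr (w k) ⟨s, hs⟩ else 0, ?_⟩
  ext i k
  rw [Matrix.mul_apply]
  have h1 : ∀ s : Fin r, ((if hs : (s : ℕ) < Module.finrank K W then
        ((b ⟨s, hs⟩ : W) : Fin n → K) i else 0) *
      (if hs : (s : ℕ) < Module.finrank K W then b.repr (w k) ⟨s, hs⟩ else 0))
      = if hs : (s : ℕ) < Module.finrank K W then
        b.repr (w k) ⟨s, hs⟩ * ((b ⟨s, hs⟩ : W) : Fin n → K) i else 0 := by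
    intro s
    split_ifs
    · ring
    · ring
  rw [Finset.sum_congr rfl (fun s _ => h1 s)]
  have h2 : ∀ (m : ℕ) (hm : m ≤ r) (g : Fin m → K),
      ∑ s : Fin r, (if hs : (s : ℕ) < m then g ⟨s, hs⟩ else 0) = ∑ s : Fin m, g s := by
    intro m hm g
    obtain ⟨l, rfl⟩ := Nat.exists_eq_add_of_le hm
    rw [Fin.sum_univ_add]
    simp
  rw [h2 _ hr (fun s => b.repr (w k) s * ((b s : W) : Fin n → K) i)]
  have h4 : (((∑ s, b.repr (w k) s • b s : W)) : Fin n → K) i = (w k : Fin n → K) i := by
    rw [b.sum_repr (w k)]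
  rw [hw k i, AddSubmonoidClass.coe_finsetSum, Finset.sum_apply] at h4
  rw [← h4]
  rfl

omit [Field K] in
lemma card_mat (m n : ℕ) : Fintype.card (Matrix (Fin m) (Fin n) K) = Fintype.card K ^ (m * n) := by
  rw [Fintype.card_congr (Matrix.of (m := Fin m) (n := Fin n) (α := K)).symm, Fintype.card_fun,
    Fintype.card_fun, Fintype.card_fin, Fintype.card_fin, ← pow_mul, Nat.mul_comm]

lemma card_rank_le (r : ℕ) :
    (Finset.univ.filter (fun d : Matrix (Fin n) (Fin n) K => d.rank ≤ r)).card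
      ≤ Fintype.card K ^ (2 * n * r) := by
  classical
  have h1 : (Finset.univ.filter (fun d : Matrix (Fin n) (Fin n) K => d.rank ≤ r)) ⊆
      (Finset.univ : Finset (Matrix (Fin n) (Fin r) K × Matrix (Fin r) (Fin n) K)).image
        (fun p => p.1 * p.2) := by
    intro d hd
    rw [Finset.mem_filter] at hd
    obtain ⟨U, V, h⟩ := exists_factor d hd.2
    rw [Finset.mem_image]
    exact ⟨(U, V), Finset.mem_univ _, h⟩
  refine (Finset.card_le_card h1).trans (Finset.card_image_le.trans ?_)
  rw [Finset.card_univ, Fintype.card_prod, card_mat, card_mat, ← pow_add]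
  apply le_of_eq
  congr 1
  ring

/-- at least a quarter of all matrices are invertible -/
lemma card_GL_ge (n : ℕ) :
    Fintype.card K ^ (n * n) ≤ 4 * Fintype.card (GL (Fin n) K) := by
  classical
  have hq : 2 ≤ Fintype.card K := Fintype.one_lt_card
  set q := Fintype.card K with hqd
  have h1 : Fintype.card (GL (Fin n) K) = ∏ i : Fin n, (q ^ n - q ^ (i : ℕ)) := by
    rw [← Nat.card_eq_fintype_card, Matrix.card_GL_field]
  rw [h1]
  -- real statement : prod_{i<n} (1 - q^i/q^n) ≥ 1/4 + 2^{-(n+1)}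
  have key : ∀ m : ℕ, (1 : ℝ) / 4 + 1 / 2 ^ (m + 2) ≤
      ∏ i ∈ Finset.range (m + 1), (1 - 1 / (2 : ℝ) ^ (i + 1)) := by
    intro m
    induction m with
    | zero => norm_num
    | succ m ih =>
      rw [Finset.prod_range_succ]
      have h2 : (0 : ℝ) ≤ 1 - 1 / (2 : ℝ) ^ (m + 1 + 1) := by
        have : (1 : ℝ) / (2 : ℝ) ^ (m + 1 + 1) ≤ 1 := by
          rw [div_le_one (by positivity)]
          exact one_le_pow₀ (by norm_num)
        linarith
      refine le_trans ?_ (mul_le_mul_of_nonneg_right ih h2)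
      set u : ℝ := 1 / 2 ^ (m + 2) with hu
      have h3 : (1 : ℝ) / 2 ^ (m + 1 + 2) = u / 2 := by
        rw [hu, pow_succ (2 : ℝ) (m + 2)]
        field_simp
      have h4 : (1 : ℝ) / 2 ^ (m + 1 + 1) = u := by rw [hu]
      rw [h3]
      have hu0 : 0 < u := by positivity
      have hu1 : u ≤ 1 / 4 := by
        rw [hu]
        apply one_div_le_one_div_of_le (by norm_num)
        calc (4 : ℝ) = 2 ^ 2 := by norm_num
          _ ≤ 2 ^ (m + 2) := pow_le_pow_right₀ (by norm_num) (by omega)
      nlinarith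
  rcases Nat.eq_zero_or_pos n with hn | hn
  · subst hn
    simp
  obtain ⟨m, rfl⟩ : ∃ m, n = m + 1 := ⟨n - 1, by omega⟩
  have h5 : ((∏ i : Fin (m + 1), (q ^ (m + 1) - q ^ (i : ℕ)) : ℕ) : ℝ)
      = (q : ℝ) ^ ((m + 1) * (m + 1)) * ∏ i ∈ Finset.range (m + 1), (1 - 1 / (q : ℝ) ^ (i + 1)) := by
    have h12 : (q : ℝ) ^ ((m + 1) * (m + 1)) = ∏ i ∈ Finset.range (m + 1), (q : ℝ) ^ (m + 1) := by
      rw [Finset.prod_const, Finset.card_range, pow_mul]
    rw [Nat.cast_prod, h12, ← Finset.prod_mul_distrib, Finset.prod_range,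
      ← Equiv.prod_comp Fin.revPerm]
    refine Finset.prod_congr rfl (fun i _ => ?_)
    have hi : (i : ℕ) < m + 1 := i.2
    rw [Fin.revPerm_apply, Fin.val_rev]
    rw [Nat.cast_sub (Nat.pow_le_pow_right (by omega) (by omega))]
    push_cast
    have hq0 : (q : ℝ) ≠ 0 := by positivity
    rw [mul_sub, mul_one]
    congr 1
    have h13 : m + 1 - ((i : ℕ) + 1) = m - (i : ℕ) := by omega
    have : (q : ℝ) ^ (m + 1) = q ^ (m + 1 - (i + 1)) * q ^ ((i : ℕ) + 1) := by
      rw [← pow_add]
      congr 1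
      omega
    rw [this, ← h13]
    field_simp
  have h6 : ∏ i ∈ Finset.range (m + 1), (1 - 1 / (2 : ℝ) ^ (i + 1)) ≤
      ∏ i ∈ Finset.range (m + 1), (1 - 1 / (q : ℝ) ^ (i + 1)) := by
    apply Finset.prod_le_prod
    · intro i _
      have : (1 : ℝ) / (2 : ℝ) ^ (i + 1) ≤ 1 := by
        rw [div_le_one (by positivity)]
        exact one_le_pow₀ (by norm_num)
      linarith
    · intro i _
      have h7 : (2 : ℝ) ≤ q := by exact_mod_cast hq
      have : (1 : ℝ) / (q : ℝ) ^ (i + 1) ≤ 1 / (2 : ℝ) ^ (i + 1) :=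
        one_div_le_one_div_of_le (by positivity) (pow_le_pow_left₀ (by norm_num) h7 _)
      linarith
  have h8 := key m
  have h9 : (0 : ℝ) < 1 / 2 ^ (m + 2) := by positivity
  have h10 : (0 : ℝ) < (q : ℝ) ^ ((m + 1) * (m + 1)) := by positivity
  have h11 : ((q ^ ((m + 1) * (m + 1)) : ℕ) : ℝ) ≤
      ((4 * ∏ i : Fin (m + 1), (q ^ (m + 1) - q ^ (i : ℕ)) : ℕ) : ℝ) := by
    rw [Nat.cast_mul, h5]
    push_cast
    nlinarith
  exact_mod_cast h11

end Pool.Q121.TS
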